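import Pool.Agent.H7.TRI.Stmts

/-! Board tri, row TRI. -/

set_option linter.unusedVariables false

open Finset

namespace Pool.TRI

open Classical in
theorem TRI_cd {n : ℕ} (H : SimpleGraph (Fin n)) {v w : Fin n} (hvw : H.Adj v w) :
    cd H v w = ((univ.filter fun s : Finset (Fin n) => H.IsNClique 3 s).filter
      fun s => v ∈ s ∧ w ∈ s).card := by
  unfold cd
  refine Finset.card_bij (fun u _ => ({v, w, u} : Finset (Fin n))) ?_ ?_ ?_
  · intro u hu
    rw [mem_inter, mem_nb, mem_nb] at hu
    rw [mem_filter, mem_filter]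
    refine ⟨⟨mem_univ _, ?_⟩, by simp, by simp⟩
    rw [SimpleGraph.is3Clique_triple_iff]
    exact ⟨hvw, hu.1, hu.2⟩
  · intro u hu u' hu' h
    rw [mem_inter, mem_nb, mem_nb] at hu
    have h1 : u ∈ ({v, w, u'} : Finset (Fin n)) := by rw [← h]; simp
    rw [mem_insert, mem_insert, mem_singleton] at h1
    rcases h1 with h1 | h1 | h1
    · exact absurd h1.symm hu.1.ne
    · exact absurd h1.symm hu.2.ne
    · exact h1
  · intro s hs
    rw [mem_filter, mem_filter] at hs
    obtain ⟨⟨-, hs⟩, hv, hw⟩ := hs
    have h1 : (s \ {v, w}).card = 1 := by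
      rw [card_sdiff_of_subset, hs.card_eq, card_pair hvw.ne]
      intro x hx
      rw [mem_insert, mem_singleton] at hx
      rcases hx with rfl | rfl
      · exact hv
      · exact hw
    obtain ⟨u, hu⟩ := card_eq_one.1 h1
    have h2 : s = {v, w, u} := by
      ext x
      have h3 : x ∈ s \ {v, w} ↔ x ∈ ({u} : Finset (Fin n)) := by rw [hu]
      rw [mem_sdiff, mem_insert, mem_singleton, mem_singleton] at h3
      rw [mem_insert, mem_insert, mem_singleton]
      constructor
      · intro hx
        by_cases hxv : x = v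
        · exact Or.inl hxv
        · by_cases hxw : x = w
          · exact Or.inr (Or.inl hxw)
          · exact Or.inr (Or.inr (h3.1 ⟨hx, fun h => h.elim hxv hxw⟩))
      · rintro (rfl | rfl | hx)
        · exact hv
        · exact hw
        · exact (h3.2 hx).1
    have h4 := hs
    rw [h2, SimpleGraph.is3Clique_triple_iff] at h4
    refine ⟨u, ?_, h2.symm⟩
    rw [mem_inter, mem_nb, mem_nb]
    exact ⟨h4.2.1, h4.2.2⟩

theorem TRI_thm : TRIStmt := by
  classical
  intro n H
  have h0 : {s : Finset (Fin n) | H.IsNClique 3 s}.ncard =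
      (univ.filter fun s : Finset (Fin n) => H.IsNClique 3 s).card := by
    rw [← Set.ncard_coe_finset]
    congr 1
    ext s
    simp
  rw [h0]
  symm
  calc ∑ v, ∑ w ∈ nb H v, cd H v w
      = ∑ v, ∑ w ∈ nb H v, ∑ s ∈ univ.filter fun s : Finset (Fin n) => H.IsNClique 3 s,
          (if v ∈ s ∧ w ∈ s then 1 else 0) := by
        refine Finset.sum_congr rfl fun v _ => Finset.sum_congr rfl fun w hw => ?_
        rw [TRI_cd H (mem_nb.1 hw), Finset.card_filter]
    _ = ∑ v, ∑ s ∈ univ.filter fun s : Finset (Fin n) => H.IsNClique 3 s, ∑ w ∈ nb H v,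
          (if v ∈ s ∧ w ∈ s then 1 else 0) := by
        refine Finset.sum_congr rfl fun v _ => Finset.sum_comm
    _ = ∑ s ∈ univ.filter fun s : Finset (Fin n) => H.IsNClique 3 s, ∑ v, ∑ w ∈ nb H v,
          (if v ∈ s ∧ w ∈ s then 1 else 0) := Finset.sum_comm
    _ = ∑ s ∈ univ.filter fun s : Finset (Fin n) => H.IsNClique 3 s, 6 := by
        refine Finset.sum_congr rfl fun s hs => ?_
        rw [mem_filter] at hs
        have hs := hs.2
        have h1 : ∀ v, ∑ w ∈ nb H v, (if v ∈ s ∧ w ∈ s then 1 else 0) =
            if v ∈ s then 2 else 0 := by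
          intro v
          by_cases hv : v ∈ s
          · rw [if_pos hv, ← Finset.card_filter]
            have h2 : (nb H v).filter (fun w => v ∈ s ∧ w ∈ s) = s.erase v := by
              ext w
              rw [mem_filter, mem_nb, mem_erase]
              constructor
              · rintro ⟨h3, h4⟩
                exact ⟨h3.ne.symm, h4.2⟩
              · rintro ⟨h3, h4⟩
                exact ⟨hs.isClique hv h4 (Ne.symm h3), hv, h4⟩
            rw [h2, card_erase_of_mem hv, hs.card_eq]
          · rw [if_neg hv]
            exact Finset.sum_eq_zero fun w _ => if_neg fun h => hv h.1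
        simp only [h1]
        rw [← Finset.sum_filter, Finset.sum_const, Finset.filter_mem_eq_inter, univ_inter,
          hs.card_eq]
        rfl
    _ = 6 * (univ.filter fun s : Finset (Fin n) => H.IsNClique 3 s).card := by
        rw [Finset.sum_const, smul_eq_mul, mul_comm]

end Pool.TRI
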